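import Mathlib
import Pool.Agent.H.MP_7b7e09_gt.A
import Pool.Agent.H.MP_55e6a3_gt.A

set_option autoImplicit false

namespace Pool.Agent.H.MP_ef395a_gt

open Set Filter Topology Cardinal PiNat Pool.Agent.H.MP_9c4169_gt Pool.Agent.H.MP_55e6a3_gt

/-- large covers -/
def La {Z : Type} (𝒪 : Set (Set Z)) : Set (Set (Set Z)) :=
  {𝒰 | 𝒰 ∈ Cov 𝒪 ∧ ∀ z : Z, {U ∈ 𝒰 | z ∈ U}.Infinite}

def Sp (A b : Set ℕ) : Prop := (b ∩ A).Infinite ∧ (b ∩ Aᶜ).Infinite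

theorem la_of {Z : Type} [TopologicalSpace Z] {𝒰 𝒱 : Set (Set Z)} (h : 𝒰 ∈ La (Op Z))
    (h1 : 𝒱 ⊆ 𝒰) (h2 : ∀ z, {U ∈ 𝒱 | z ∈ U}.Infinite) : 𝒱 ∈ La (Op Z) :=
  ⟨⟨h1.trans h.1.1, eq_univ_of_forall fun z => (h2 z).nonempty, fun h3 => h.1.2.2 (h1 h3)⟩, h2⟩

theorem split_of {Z : Type} [TopologicalSpace Z] [SecondCountableTopology Z] [Nonempty Z]
    (h : ∀ u : ℕ → Set Z, (∀ n, IsOpen (u n)) → (∀ z, {n | z ∈ u n}.Infinite) →
      ∃ A, ∀ z, Sp A {n | z ∈ u n}) : Split (La (Op Z)) (La (Op Z)) := by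
  intro 𝒰 hU
  have h1 : ∀ B : Set Z, ∃ 𝒞 ⊆ {U ∈ 𝒰 | B ⊆ U}, 𝒞.Countable ∧
      (𝒞.Infinite ∨ 𝒞 = {U ∈ 𝒰 | B ⊆ U}) := fun B => by
    rcases {U ∈ 𝒰 | B ⊆ U}.finite_or_infinite with h | h
    · exact ⟨_, subset_rfl, h.countable, Or.inr rfl⟩
    · exact ⟨range fun n => h.natEmbedding _ n, range_subset_iff.2 fun n => Subtype.prop _,
        countable_range _, Or.inl (infinite_range_of_injective
          (Subtype.val_injective.comp (h.natEmbedding _).injective))⟩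
  choose 𝒞 c1 c2 c3 using h1
  let 𝒱 := ⋃ B ∈ TopologicalSpace.countableBasis Z, 𝒞 B
  have v1 : 𝒱 ⊆ 𝒰 := iUnion₂_subset fun B _ U hU => (c1 B hU).1
  have v2 : ∀ z, {U ∈ 𝒱 | z ∈ U}.Infinite := fun z hz => by
    obtain ⟨U, ⟨u1, u2⟩, u3⟩ := (hU.2 z).exists_notMem_finite hz
    obtain ⟨B, b1, b2, b3⟩ :=
      (TopologicalSpace.isBasis_countableBasis Z).exists_subset_of_mem_open u2 (hU.1.1 u1)
    rcases c3 B with h | h
    · exact h (hz.subset fun W hW => ⟨mem_biUnion b1 hW, (c1 B hW).2 b2⟩)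
    · exact u3 ⟨mem_biUnion b1 (h.ge ⟨u1, b3⟩), u2⟩
  have := ((TopologicalSpace.countable_countableBasis Z).biUnion fun B _ => c2 B).to_subtype
  have := ((v2 (Classical.arbitrary Z)).mono (sep_subset _ _)).to_subtype
  obtain ⟨e⟩ := nonempty_equiv_of_countable (α := ℕ) (β := 𝒱)
  have e1 : Function.Injective fun n => (e n).1 := Subtype.val_injective.comp e.injective
  obtain ⟨A, hA⟩ := h (fun n => e n) (fun n => hU.1.1 (v1 (e n).2)) fun z =>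
    Infinite.of_image (fun n => (e n).1) ((v2 z).mono fun U hU =>
      ⟨e.symm ⟨U, hU.1⟩, by simpa using hU.2, by simp⟩)
  have e2 : ∀ A, (fun n => (e n).1) '' A ⊆ 𝒰 := by
    rintro _ _ ⟨n, -, rfl⟩; exact v1 (e n).2
  have e3 : ∀ A, (∀ z, ({n | z ∈ (e n).1} ∩ A).Infinite) → (fun n => (e n).1) '' A ∈ La (Op Z) :=
    fun A h => la_of hU (e2 A) fun z => ((h z).image e1.injOn).mono <| by
      rintro _ ⟨n, hn, rfl⟩; exact ⟨⟨n, hn.2, rfl⟩, hn.1⟩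
  refine ⟨_, _, union_diff_cancel (e2 A), disjoint_sdiff_right, ⟨_, subset_rfl,
    e3 A fun z => (hA z).1⟩, _, subset_diff.2 ⟨e2 Aᶜ, ?_⟩, e3 _ fun z => (hA z).2⟩
  exact (disjoint_image_iff e1).2 disjoint_compl_left

theorem nsplit {Z : Type} [TopologicalSpace Z] (u : ℕ → Set Z) (h1 : ∀ n, IsOpen (u n))
    (h2 : ∀ z, {n | z ∈ u n}.Infinite) (h3 : ∀ n, ∃ z, ∀ m, z ∈ u m ↔ m ≠ n)
    (h4 : ∀ A, ∃ z, ¬ Sp A {n | z ∈ u n}) : ¬ Split (La (Op Z)) (La (Op Z)) := fun h => by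
  have h5 : Function.Injective u := fun n m h => by
    obtain ⟨z, hz⟩ := h3 n
    by_contra h6
    exact (hz n).1 (h ▸ (hz m).2 (Ne.symm h6)) rfl
  have h6 : ∀ z, {U ∈ range u | z ∈ U}.Infinite := fun z => ((h2 z).image h5.injOn).mono <| by
    rintro _ ⟨n, hn, rfl⟩; exact ⟨⟨n, rfl⟩, hn⟩
  obtain ⟨𝒱, 𝒲, v1, v2, ⟨𝒱', v3, v4⟩, 𝒲', v5, v6⟩ := h (range u) ⟨⟨range_subset_iff.2 h1,
    eq_univ_of_forall fun z => (h6 z).nonempty, fun ⟨n, hn⟩ =>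
      (h3 n).elim fun z hz => (hz n).1 (hn.ge trivial) rfl⟩, h6⟩
  obtain ⟨z, hz⟩ := h4 (u ⁻¹' 𝒱)
  refine hz ⟨Infinite.of_image u ((v4.2 z).mono fun U hU => ?_),
    Infinite.of_image u ((v6.2 z).mono fun U hU => ?_)⟩
  · obtain ⟨n, rfl⟩ := v1.le (Or.inl (v3 hU.1))
    exact ⟨n, ⟨hU.2, v3 hU.1⟩, rfl⟩
  · obtain ⟨n, rfl⟩ := v1.le (Or.inr (v5 hU.1))
    exact ⟨n, ⟨hU.2, fun h => disjoint_left.1 v2 h (v5 hU.1)⟩, rfl⟩

theorem spl2 {ι : Type} [Countable ι] (Q : ι → Set ℕ → Prop)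
    (q1 : ∀ r A B, A ⊆ B → Q r A → Q r B) (q2 : ∀ r k, ∃ m, Q r (Ico k m)) :
    ∃ B, ∀ r, Q r B ∧ Q r Bᶜ := by
  cases isEmpty_or_nonempty ι
  · exact ⟨∅, fun r => isEmptyElim r⟩
  obtain ⟨e, he⟩ := exists_surjective_nat ι
  choose m hm using q2
  obtain ⟨j, j1, Z, j2⟩ := MP_7b7e09_gt.hnat fun i k => m (e i) k
  refine ⟨⋃ n ∈ Z, Ico (j n) (j (n + 1)), he.forall.2 fun i => ?_⟩
  obtain ⟨⟨n, n1, n2⟩, l, l1, l2⟩ := j2 i
  refine ⟨q1 _ _ _ (fun a ha => mem_biUnion n1 ⟨ha.1, ha.2.trans_le n2⟩) (hm _ _),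
    q1 _ _ _ (fun a ha h => ?_) (hm _ (j l))⟩
  obtain ⟨n, n1, n2, n3⟩ := mem_iUnion₂.1 h
  have a1 := j1.lt_iff_lt.1 (n2.trans_lt (ha.2.trans_le l2))
  have a2 := j1.lt_iff_lt.1 (ha.1.trans_lt n3)
  exact l1 ((by omega : n = l) ▸ n1)

theorem inf_of {b : Set ℕ} (h : ∀ k, ∃ j ∈ b, k ≤ j) : b.Infinite :=
  infinite_of_forall_exists_gt fun k => h (k + 1)

theorem inf_ico {b : Set ℕ} (h : b.Infinite) (l k : ℕ) : ∃ m, ∃ j ∈ b ∩ Ico k m, l ≤ j := by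
  obtain ⟨j, j1, j2⟩ := h.exists_gt (max k l)
  exact ⟨j + 1, j, ⟨j1, by omega, by omega⟩, by omega⟩

theorem copen (Z : Type) [TopologicalSpace Z] [SecondCountableTopology Z] :
    #(ℕ → {U : Set Z | IsOpen U}) ≤ continuum := by
  borelize Z
  obtain ⟨b, b1, b2⟩ := MeasurableSpace.CountablyGenerated.isCountablyGenerated (α := Z)
  have := MeasurableSpace.cardinal_measurableSet_le_continuum
    (b1.le_aleph0.trans aleph0_le_continuum)
  rw [← b2] at this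
  simp only [← power_def, mk_nat]
  exact (power_le_power_right ((mk_le_mk_of_subset fun U (h : IsOpen U) =>
    h.measurableSet).trans this)).trans (by simp)

section
variable {α : Type}

def Ext (ρ : List α → α → Prop) : List α → List α → Prop :=
  Relation.ReflTransGen fun s t => ∃ j, ρ s j ∧ t = j :: s

def Mt (x : ℕ → α) (W : Set (List α)) : Prop := ∃ n, res x n ∈ W

def Nd (U : Set (ℕ → α)) : Set (List α) := {t | ∀ x, res x t.length = t → x ∈ U}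

theorem ex1 [Nonempty α] (t : List α) : ∃ x, res x t.length = t := by
  classical
  induction t with
  | nil => exact ⟨fun _ => Classical.arbitrary α, rfl⟩
  | cons j t ih =>
    obtain ⟨x, hx⟩ := ih
    refine ⟨Function.update x t.length j, ?_⟩
    simp only [List.length_cons, res_succ, Function.update_self, List.cons.injEq, true_and]
    exact (res_eq_res.2 fun m hm => Function.update_of_ne hm.ne _ _).trans hx

theorem ex2 {ρ : List α → α → Prop} {s t : List α} (h : Ext ρ s t) : s.length ≤ t.length ∧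
    ∀ x, res x t.length = t → res x s.length = s ∧
      ∀ n, s.length ≤ n → n < t.length → ρ (res x n) (x n) := by
  induction h with
  | refl => exact ⟨le_rfl, fun x hx => ⟨hx, fun n h1 h2 => (h2.not_ge h1).elim⟩⟩
  | tail _ h ih =>
    obtain ⟨j, h1, rfl⟩ := h
    refine ⟨ih.1.trans (Nat.le_succ _), fun x hx => ?_⟩
    simp only [List.length_cons, res_succ, List.cons.injEq] at hx
    refine ⟨(ih.2 x hx.2).1, fun n n1 n2 => ?_⟩
    rcases (Nat.lt_succ_iff.1 n2).lt_or_eq with h | rfl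
    · exact (ih.2 x hx.2).2 n n1 h
    · rwa [hx.1, hx.2]

theorem ex3 {ρ : List α → α → Prop} {x : ℕ → α} {k m : ℕ} (h : k ≤ m)
    (h1 : ∀ n, k ≤ n → n < m → ρ (res x n) (x n)) : Ext ρ (res x k) (res x m) := by
  induction m, h using Nat.le_induction with
  | base => exact .refl
  | succ m h ih =>
    exact (ih fun n a b => h1 n a (by omega)).tail ⟨_, h1 m h (by omega), rfl⟩

theorem gen [Nonempty α] {ρ : List α → α → Prop} (h1 : ∀ s, ∃ j, ρ s j) {𝒲 : Set (Set (List α))}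
    (h2 : 𝒲.Countable) (h3 : ∀ W ∈ 𝒲, ∀ s, ∃ t ∈ W, Ext ρ s t) (s : List α) :
    ∃ x, res x s.length = s ∧ (∀ n, s.length ≤ n → ρ (res x n) (x n)) ∧ ∀ W ∈ 𝒲, Mt x W := by
  obtain ⟨w, hw⟩ := (h2.insert Set.univ).exists_eq_range (insert_nonempty _ _)
  have h4 : ∀ n s, ∃ t ∈ w n, Ext ρ s t ∧ s.length < t.length := fun n s => by
    obtain ⟨j, hj⟩ := h1 s
    obtain ⟨t, t1, t2⟩ : ∃ t ∈ w n, Ext ρ (j :: s) t := by
      rcases hw.ge ⟨n, rfl⟩ with h | h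
      · exact ⟨_, h.ge trivial, .refl⟩
      · exact h3 _ h _
    exact ⟨t, t1, .head ⟨j, hj, rfl⟩ t2, (ex2 t2).1⟩
  choose T t1 t2 t3 using h4
  let S : ℕ → List α := fun n => Nat.rec s (fun n t => T n t) n
  have s1 : ∀ n m, n ≤ m → Ext ρ (S n) (S m) := fun n m h => by
    induction m, h using Nat.le_induction with
    | base => exact .refl
    | succ m _ ih => exact ih.trans (t2 m _)
  have s2 : StrictMono fun n => (S n).length := strictMono_nat_of_lt_succ fun n => t3 n _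
  choose y hy using ex1 (α := α)
  have s3 : ∀ n m, n ≤ m → ∀ i < (S n).length, y (S m) i = y (S n) i := fun n m h =>
    res_eq_res.1 (((ex2 (s1 n m h)).2 _ (hy _)).1.trans (hy _).symm)
  have s4 : ∀ n, res (fun i => y (S (i + 1)) i) (S n).length = S n := fun n =>
    (res_eq_res.2 fun i hi => (le_total n (i + 1)).elim (fun h => s3 _ _ h i hi)
      fun h => (s3 _ _ h i (s2.id_le (i + 1))).symm).trans (hy _)
  refine ⟨_, s4 0, fun n hn => ((ex2 (s1 0 (n + 1) (by omega))).2 _ (s4 (n + 1))).2 n hn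
    (s2.id_le (n + 1)), fun W hW => ?_⟩
  obtain ⟨n, rfl⟩ := hw.le (Or.inr hW)
  exact ⟨(S (n + 1)).length, by rw [s4 (n + 1)]; exact t1 n _⟩

theorem nd1 [TopologicalSpace α] [DiscreteTopology α] {U : Set (ℕ → α)} (hU : IsOpen U)
    {x : ℕ → α} (hx : x ∈ U) (k : ℕ) : ∃ n ≥ k, res x n ∈ Nd U := by
  obtain ⟨_, ⟨y, n, rfl⟩, h1, h2⟩ :=
    (isTopologicalBasis_cylinders fun _ => α).exists_subset_of_mem_open hx hU
  refine ⟨max n k, le_max_right _ _, fun z hz => h2 fun i hi => ?_⟩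
  rw [res_length] at hz
  exact (res_eq_res.1 hz (lt_max_of_lt_left hi)).trans (h1 i hi)

theorem nd2 {U : Set (ℕ → α)} {x : ℕ → α} {n : ℕ} (h : res x n ∈ Nd U) : x ∈ U :=
  h x (by simp)

def Wd (U : ℕ → Set (ℕ → α)) (A : Set ℕ) (k : ℕ) : Set (List α) :=
  {t | ∃ j ∈ A, k ≤ j ∧ t ∈ Nd (U j)}

theorem wd1 {U : ℕ → Set (ℕ → α)} {A : Set ℕ} {x : ℕ → α} (h : ∀ k, Mt x (Wd U A k)) :
    ({j | x ∈ U j} ∩ A).Infinite := inf_of fun k => by
  obtain ⟨n, j, h1, h2, h3⟩ := h k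
  exact ⟨j, ⟨nd2 h3, h1⟩, h2⟩

theorem wd2 [TopologicalSpace α] [DiscreteTopology α] {U : ℕ → Set (ℕ → α)}
    (hU : ∀ j, IsOpen (U j)) {x : ℕ → α} {k l : ℕ} (h : ∀ n ≥ l, res x n ∉ Wd U Set.univ k) :
    {j | x ∈ U j}.Finite := (finite_Iio k).subset fun j hj => by
  obtain ⟨n, n1, n2⟩ := nd1 (hU j) hj l
  exact not_le.1 fun h' => h n n1 ⟨j, trivial, h', n2⟩

end

def R (W : Set (List ℕ)) (s : List ℕ) : Prop :=
  ∀ T : Set (List ℕ), W ⊆ T → (∀ t, {j | j :: t ∈ T}.Infinite → t ∈ T) → s ∈ T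

theorem R.base {W : Set (List ℕ)} {s : List ℕ} (h : s ∈ W) : R W s := fun _ h1 _ => h1 h

theorem R.step {W : Set (List ℕ)} {s : List ℕ} (h : {j | R W (j :: s)}.Infinite) : R W s :=
  fun T h1 h2 => h2 s (h.mono fun j (hj : R W (j :: s)) => hj T h1 h2)

theorem R.mono {W W' : Set (List ℕ)} {s : List ℕ} (h : R W s) (h' : W ⊆ W') : R W' s :=
  fun T h1 h2 => h T (h'.trans h1) h2

theorem R.ext {W : Set (List ℕ)} {s : List ℕ} (h : R W s) (φ : List ℕ → ℕ) :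
    ∃ t ∈ W, Ext (fun s j => φ s ≤ j) s t :=
  h {s | ∃ t ∈ W, Ext (fun s j => φ s ≤ j) s t} (fun t ht => ⟨t, ht, .refl⟩) fun t ht => by
    obtain ⟨j, ⟨u, u1, u2⟩, hj⟩ := ht.exists_gt (φ t)
    exact ⟨u, u1, .head ⟨j, hj.le, rfl⟩ u2⟩

theorem bd (U : ℕ → Set (ℕ → ℕ)) (h : ∀ k s, R (Wd U Set.univ k) s) :
    ∃ 𝒜 : Set (Set ℕ), 𝒜.Countable ∧ ∀ A, (∀ a ∈ 𝒜, a.Infinite → (a ∩ A).Infinite) →
      ∀ k s, R (Wd U A k) s := by
  have h1 : ∀ k s, ∃ m, (∃ m ≥ k, R (Nd (U m)) s) → k ≤ m ∧ R (Nd (U m)) s := fun k s => by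
    by_cases h : ∃ m ≥ k, R (Nd (U m)) s
    · exact h.imp fun m hm _ => hm
    · exact ⟨0, fun h' => (h h').elim⟩
  choose c hc using h1
  refine ⟨(range fun s => {n | R (Nd (U n)) s}) ∪ range fun p : ℕ × List ℕ =>
    (fun i => c p.1 (i :: p.2)) '' {i | ∃ m ≥ p.1, R (Nd (U m)) (i :: p.2)},
    (countable_range _).union (countable_range _), fun A hA k s => ?_⟩
  have h2 : ∀ s m k, m ∈ A → k ≤ m → R (Nd (U m)) s → R (Wd U A k) s := fun s m k a b c =>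
    c.mono fun t ht => ⟨m, a, b, ht⟩
  have h3 : ∀ l, (∃ m ≥ l, R (Nd (U m)) s) ∨ R (Wd U A k) s := fun l =>
    h l s {s | (∃ m ≥ l, R (Nd (U m)) s) ∨ R (Wd U A k) s}
      (fun t ⟨m, _, m1, m2⟩ => Or.inl ⟨m, m1, .base m2⟩) fun t ht => by
      rcases infinite_union.1 (show ({i | ∃ m ≥ l, R (Nd (U m)) (i :: t)} ∪
        {i | R (Wd U A k) (i :: t)}).Infinite from ht) with h4 | h4
      · by_cases h5 : ((fun i => c l (i :: t)) '' {i | ∃ m ≥ l, R (Nd (U m)) (i :: t)}).Finite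
        · by_contra h6
          refine h4 (h5.of_finite_fibers _ ?_)
          rintro _ ⟨i, hi, rfl⟩
          by_contra h7
          refine h6 (Or.inl ⟨_, (hc _ _ hi).1, .step (Infinite.mono ?_ h7)⟩)
          exact fun j hj => (show c l (j :: t) = c l (i :: t) from hj.2) ▸ (hc _ _ hj.1).2
        · refine Or.inr (.step (Infinite.of_image (fun i => c l (i :: t))
            (((hA _ (Or.inr ⟨(l, t), rfl⟩) h5).sdiff (finite_Iio k)).mono ?_)))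
          rintro _ ⟨⟨⟨i, hi, rfl⟩, h6⟩, h7⟩
          exact ⟨i, h2 _ _ _ h6 (not_lt.1 h7) (hc _ _ hi).2, rfl⟩
      · exact Or.inr (.step h4)
  by_contra h4
  obtain ⟨m, ⟨m1, m2⟩, m3⟩ := (hA _ (Or.inl ⟨s, rfl⟩) (inf_of fun l =>
    ((h3 l).resolve_right h4).imp fun m hm => ⟨hm.2, hm.1⟩)).exists_gt k
  exact h4 (h2 _ _ _ m2 m3.le m1)

theorem spl3 {𝒜 : Set (Set ℕ)} (h : 𝒜.Countable) : ∃ A, ∀ a ∈ 𝒜, a.Infinite → Sp A a := by
  have := (h.mono (sep_subset 𝒜 Set.Infinite)).to_subtype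
  obtain ⟨B, hB⟩ := spl2 (fun (r : {a ∈ 𝒜 | a.Infinite} × ℕ) J => ∃ j ∈ r.1.1 ∩ J, r.2 ≤ j)
    (fun r A B h ⟨j, j1, j2⟩ => ⟨j, ⟨j1.1, h j1.2⟩, j2⟩) fun r k => inf_ico r.1.2.2 _ _
  exact ⟨B, fun a h1 h2 => ⟨inf_of fun k => (hB (⟨a, h1, h2⟩, k)).1,
    inf_of fun k => (hB (⟨a, h1, h2⟩, k)).2⟩⟩

abbrev Dn : Type := {W : Set (List ℕ) // ∀ s, R W s}

theorem stage {P : Set (ℕ → ℕ)} (hP : P.Countable) {𝒲 : Set Dn} (hW : 𝒲.Countable)
    (U : ℕ → Set (ℕ → ℕ)) (hU : ∀ j, IsOpen (U j)) (f : ℕ → ℕ) :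
    ∃ d : (ℕ → ℕ) × Set ℕ × (Bool × ℕ → Dn), (∀ W ∈ 𝒲, Mt d.1 W.1) ∧ (∀ᶠ n in atTop, f n ≤ d.1 n) ∧
      ({j | d.1 ∈ U j}.Finite ∨ ∀ z, (z ∈ insert d.1 P ∨ ∀ k, Mt z (d.2.2 k).1) →
        {j | z ∈ U j}.Infinite → Sp d.2.1 {j | z ∈ U j}) := by
  have h1 : ∀ (φ : List ℕ → ℕ) (s : List ℕ), ∃ x, res x s.length = s ∧ (∀ n, s.length ≤ n →
      φ (res x n) ≤ x n) ∧ (∀ W ∈ 𝒲, Mt x W.1) ∧ ∀ᶠ n in atTop, f n ≤ x n := fun φ s => by
    obtain ⟨x, x1, x2, x3⟩ := gen (ρ := fun s j => max (φ s) (f s.length) ≤ j) (fun _ => ⟨_, le_rfl⟩)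
      (hW.image Subtype.val) (by rintro _ ⟨W, -, rfl⟩ s; exact (W.2 s).ext _) s
    exact ⟨x, x1, fun n hn => le_of_max_le_left (x2 n hn), fun W h => x3 _ ⟨W, h, rfl⟩,
      eventually_atTop.2 ⟨_, fun n hn => by simpa using le_of_max_le_right (x2 n hn)⟩⟩
  by_cases h : ∀ k s, R (Wd U Set.univ k) s
  · obtain ⟨x, -, -, x1, x2⟩ := h1 (fun _ => 0) []
    obtain ⟨𝒜, a1, a2⟩ := bd U h
    obtain ⟨A, hA⟩ := spl3 (a1.union ((hP.insert x).image fun z => {j | z ∈ U j}))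
    refine ⟨(x, A, fun k => ⟨Wd U (bif k.1 then A else Aᶜ) k.2, a2 _ (fun a h1 h2 => ?_) _⟩),
      x1, x2, Or.inr fun z hz h1 => hz.elim (fun h => hA _ (Or.inr ⟨z, h, rfl⟩) h1) fun h =>
        ⟨wd1 fun k => h (true, k), wd1 fun k => h (false, k)⟩⟩
    cases k.1
    exacts [(hA a (Or.inl h1) h2).2, (hA a (Or.inl h1) h2).1]
  · push Not at h
    obtain ⟨k, s, h⟩ := h
    have h2 : ∀ t, ∃ m, ¬ R (Wd U Set.univ k) t → ∀ j ≥ m, ¬ R (Wd U Set.univ k) (j :: t) :=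
      fun t => by
        by_cases h : R (Wd U Set.univ k) t
        · exact ⟨0, fun h' => (h' h).elim⟩
        · obtain ⟨m, hm⟩ := (not_infinite.1 fun h' => h (.step h')).bddAbove
          exact ⟨m + 1, fun _ j h1 h2 => (hm h2).not_gt h1⟩
    choose φ hφ using h2
    obtain ⟨x, x1, x2, x3, x4⟩ := h1 φ s
    refine ⟨(x, ∅, fun _ => ⟨Set.univ, fun _ => .base trivial⟩), x3, x4,
      Or.inl (wd2 hU (k := k) (l := s.length) fun n hn h' => ?_)⟩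
    refine (show ¬ R (Wd U Set.univ k) (res x n) from ?_) (.base h')
    clear h'
    induction n, hn using Nat.le_induction with
    | base => rwa [x1]
    | succ n hn ih => exact hφ _ ih _ (x2 n hn)

theorem main (ch : continuum = (aleph 1 : Cardinal.{0})) : ∃ Y : Set (ℕ → ℕ),
    (∀ f : ℕ → ℕ, ∃ y ∈ Y, ∀ᶠ n in atTop, f n ≤ y n) ∧ ∀ U : ℕ → Set (ℕ → ℕ), (∀ j, IsOpen (U j)) →
      (∀ y ∈ Y, {j | y ∈ U j}.Infinite) → ∃ A, ∀ y ∈ Y, Sp A {j | y ∈ U j} := by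
  obtain ⟨e, he⟩ : ∃ e : I → (ℕ → {U : Set (ℕ → ℕ) | IsOpen U}) × (ℕ → ℕ),
      Function.Surjective e := by
    have : Nonempty {U : Set (ℕ → ℕ) | IsOpen U} := ⟨⟨∅, (isOpen_empty : IsOpen (∅ : Set (ℕ → ℕ)))⟩⟩
    obtain ⟨j⟩ : #((ℕ → {U : Set (ℕ → ℕ) | IsOpen U}) × (ℕ → ℕ)) ≤ #I := by
      rw [mkI, ← ch, mk_prod, lift_id, lift_id]
      exact (mul_le_mul' (copen _) le_rfl).trans (by simp)
    exact ⟨_, Function.invFun_surjective j.injective⟩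
  choose F F1 F2 F3 using fun (α : I) (r : Iio α → (ℕ → ℕ) × Set ℕ × (Bool × ℕ → Dn)) =>
    haveI := (cIio α).to_subtype
    stage (countable_range fun β => (r β).1) (countable_iUnion fun β => countable_range (r β).2.2)
      (fun j => (e α).1 j) (fun j => ((e α).1 j).2) (e α).2
  obtain ⟨c, hc⟩ : ∃ c : I → (ℕ → ℕ) × Set ℕ × (Bool × ℕ → Dn), ∀ α, c α = F α fun β => c β :=
    ⟨wellFounded_lt.fix fun α r => F α fun β => r β β.2, fun α => wellFounded_lt.fix_eq _ α⟩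
  refine ⟨range fun α => (c α).1, fun f => ?_, fun U hU h => ?_⟩
  · obtain ⟨α, hα⟩ := he (fun _ => ⟨∅, (isOpen_empty : IsOpen (∅ : Set (ℕ → ℕ)))⟩, f)
    have := F2 α fun β => c β
    rw [← hc, hα] at this
    exact ⟨_, ⟨α, rfl⟩, this⟩
  · obtain ⟨α, hα⟩ := he (fun j => ⟨U j, hU j⟩, 0)
    have := F3 α fun β => c β
    rw [← hc, hα] at this
    refine ⟨(c α).2.1, forall_mem_range.2 fun β => this.resolve_left (h _ ⟨α, rfl⟩) _ ?_
      (h _ ⟨β, rfl⟩)⟩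
    rcases lt_trichotomy β α with h1 | rfl | h1
    · exact Or.inl (Or.inr ⟨⟨β, h1⟩, rfl⟩)
    · exact Or.inl (Or.inl rfl)
    · refine Or.inr fun k => ?_
      rw [hc β]
      exact F1 _ _ _ (mem_iUnion.2 ⟨⟨α, h1⟩, k, rfl⟩)

theorem key (ch : continuum = (aleph 1 : Cardinal.{0})) : ∃ Y : Set (ℕ → ℕ),
    Split (La (Op Y)) (La (Op Y)) ∧
      ¬ Split (La (Op ((ℕ → Bool) × Y))) (La (Op ((ℕ → Bool) × Y))) := by
  classical
  obtain ⟨Y, h1, h2⟩ := main ch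
  obtain ⟨y0, hy0, -⟩ := h1 0
  have : Nonempty Y := ⟨⟨y0, hy0⟩⟩
  refine ⟨Y, split_of fun u u1 u2 => ?_, nsplit (fun n => {z | z.1 n = true ∨
    ∃ k < n, k + z.2.1 k + 1 = n ∧ ∀ i < n, k ≤ i → z.1 i = false}) (fun n => ?_)
    (fun z => inf_of fun k => ?_) (fun n => ⟨(fun m => decide (m ≠ n), ⟨y0, hy0⟩), fun m => ?_⟩)
    fun A => ?_⟩
  · choose U v1 v2 using fun n => isOpen_induced_iff.1 (u1 n)
    obtain ⟨A, hA⟩ := h2 U v1 fun y hy => by simpa [← v2] using u2 ⟨y, hy⟩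
    exact ⟨A, fun z => by simpa [← v2] using hA z z.2⟩
  · have c1 : ∀ i b, IsOpen {z : (ℕ → Bool) × Y | z.1 i = b} := fun i b =>
      (isOpen_discrete {b}).preimage
        ((continuous_apply (A := fun _ : ℕ => Bool) i).comp continuous_fst)
    rw [ofPred_or, ofPred_exists]
    refine (c1 n true).union ?_
    refine isOpen_iUnion fun k => isOpen_const.inter (IsOpen.inter ?_ ?_)
    · exact (isOpen_discrete {a | k + a + 1 = n}).preimage ((continuous_apply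
        (A := fun _ : ℕ => ℕ) k).comp (continuous_subtype_val.comp continuous_snd))
    · have := (finite_Ico k n).isOpen_biInter fun i _ => c1 i false
      convert this using 1
      ext z
      simp only [mem_iInter]
      exact ⟨fun h i hi => h i hi.2 hi.1, fun h i a b => h i ⟨b, a⟩⟩
  · by_cases h : ∀ i < k + z.2.1 k + 1, k ≤ i → z.1 i = false
    · exact ⟨_, Or.inr ⟨k, by omega, rfl, h⟩, by omega⟩
    · push Not at h
      obtain ⟨i, -, h1, h2⟩ := h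
      exact ⟨i, Or.inl (by simpa using h2), h1⟩
  · refine ⟨?_, fun h => Or.inl (by simpa using h)⟩
    rintro (h | ⟨k, k1, -, k2⟩) rfl
    · simp at h
    · have := k2 (m - 1) (by omega) (by omega)
      simp at this
      omega
  · by_cases hA : A.Infinite
    · choose f f1 f2 using hA.exists_gt
      obtain ⟨y, y1, y2⟩ := h1 f
      obtain ⟨l, hl⟩ := eventually_atTop.1 y2
      refine ⟨(fun m => decide (m ∈ A), ⟨y, y1⟩), fun h => h.2 (((finite_Iio l).image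
        fun k => k + y k + 1).subset ?_)⟩
      rintro n ⟨h3 | ⟨k, -, rfl, h3⟩, h4⟩
      · exact (h4 (by simpa using h3)).elim
      · refine ⟨k, show k < l from not_le.1 fun h5 => ?_, rfl⟩
        have := hl k h5
        simpa [f1] using h3 (f k) (by simp only; omega) (f2 k).le
    · exact ⟨(fun _ => true, ⟨y0, hy0⟩), fun h => hA (h.1.mono inter_subset_right)⟩

end Pool.Agent.H.MP_ef395a_gt
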